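import Pool.Agent.H2Spec.AcVec

set_option autoImplicit false

open MeasureTheory Filter Topology
open scoped ENNReal InnerProductSpace

namespace Pool.Agent.Results.MP_3ab43d_mp.MixedSpectrum

open Pool.Agent.H99 Pool.Agent.H2Spec

/-- `V` is limit-periodic: a uniform limit of periodic sequences. -/
def LimitPeriodic (V : ℤ → ℝ) : Prop :=
  ∀ ε : ℝ, 0 < ε → ∃ p : ℕ, 0 < p ∧ ∃ W : ℤ → ℝ,
    (∀ n : ℤ, W (n + (p : ℤ)) = W n) ∧ ∀ n : ℤ, |V n - W n| < ε

/-- the complex Hilbert space of square-summable sequences on the integers -/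
abbrev L2 : Type := lp (fun _ : ℤ => ℂ) 2

/-- `A` is the discrete Schroedinger operator with potential `V`. -/
def IsSchrodinger (V : ℤ → ℝ) (A : L2 →L[ℂ] L2) : Prop :=
  ∀ (f : L2) (n : ℤ), A f n = f (n + 1) + f (n - 1) + (V n : ℂ) * f n

section
variable {X : Type} [NormedAddCommGroup X] [InnerProductSpace ℂ X] [CompleteSpace X]

/-- `A` has an eigenvector with a real eigenvalue. -/
def HasEigenvector (A : X →L[ℂ] X) : Prop :=
  ∃ ψ : X, ψ ≠ 0 ∧ ∃ E : ℝ, A ψ = (E : ℂ) • ψ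

/-- `μ` is the spectral measure of `φ` for the bounded self-adjoint operator `A`: the finite
measure living on `|x| ≤ ‖A‖` whose `n`-th moment is `⟨φ, A ^ n φ⟩` for every `n`. -/
def IsSpectralMeasure (A : X →L[ℂ] X) (φ : X) (μ : Measure ℝ) : Prop :=
  IsFiniteMeasure μ ∧ μ {x : ℝ | ‖A‖ < |x|} = 0 ∧
    ∀ n : ℕ, Integrable (fun x : ℝ => x ^ n) μ ∧
      ((∫ x, x ^ n ∂μ : ℝ) : ℂ) = inner ℂ φ ((A ^ n) φ)

/-- the absolutely continuous subspace of `A` is not zero -/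
def HasAcVector (A : X →L[ℂ] X) : Prop :=
  ∃ φ : X, φ ≠ 0 ∧ ∃ μ : Measure ℝ, IsSpectralMeasure A φ μ ∧ μ ≪ volume

end

private lemma lower (V : ℤ → ℝ) (B : ℝ) (hV : ∀ n, |V n| ≤ B) :
    LowerBound V (specMeasure (schr V B hV) (schr_selfAdjoint V B hV) (dlt 0)) := by
  intro E t ht φ hφ
  have hmem : Memℓp (fun n => (φ n : ℂ)) 2 := by
    rw [memL2Z_iff]
    simpa using hφ
  set Φ : L2Z := ⟨fun n => (φ n : ℂ), hmem⟩ with hΦ
  have hΦa : ∀ n, Φ n = (φ n : ℂ) := fun n => rfl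
  have h := specMeasure_lower (schr V B hV) (schr_selfAdjoint V B hV) (dlt 0) Φ E t ht
  have h1 : ‖⟪dlt 0, Φ⟫_ℂ‖ ^ 2 = φ 0 ^ 2 := by
    unfold dlt
    rw [lp.inner_single_left]
    simp [hΦa]
  have h2 : ‖Φ‖ ^ 2 = ∑' n, φ n ^ 2 := by
    rw [L2Z_norm_sq]
    simp [hΦa]
  have h3 : ‖schr V B hV Φ - (E : ℂ) • Φ‖ ^ 2 =
      ∑' n, (φ (n + 1) + φ (n - 1) + V n * φ n - E * φ n) ^ 2 := by
    rw [L2Z_norm_sq]
    congr 1
    funext n
    have : (schr V B hV Φ - (E : ℂ) • Φ) n =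
        ((φ (n + 1) + φ (n - 1) + V n * φ n - E * φ n : ℝ) : ℂ) := by
      have e1 : (schr V B hV Φ - (E : ℂ) • Φ) n = schr V B hV Φ n - (E : ℂ) * Φ n := rfl
      rw [e1, schr_apply, hΦa, hΦa, hΦa]
      push_cast
      rfl
    rw [this, Complex.norm_real, Real.norm_eq_abs, sq_abs]
  rw [h1, h2, h3] at h
  exact h

/-- There is a limit-periodic real potential `V` on the integers such that the bounded
self-adjoint operator `(A f)(n) = f(n+1) + f(n-1) + V(n) f(n)` on complex square-summable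
sequences has an eigenvector and also has a nonzero vector whose spectral measure is absolutely
continuous with respect to Lebesgue measure. -/
theorem result :
    ∃ V : ℤ → ℝ, LimitPeriodic V ∧ ∃ A : L2 →L[ℂ] L2,
      IsSelfAdjoint A ∧ IsSchrodinger V A ∧ HasEigenvector A ∧ HasAcVector A := by
  obtain ⟨N, hN, hvol⟩ := exists_N
  have hg := good hN
  set V := VV ccs N with hV
  have hVb : ∀ n, |V n| ≤ ∑' k, |dl ccs N k| := VV_bounded hg
  refine ⟨V, VV_limitPeriodic hg, schr V _ hVb, schr_selfAdjoint V _ hVb,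
    fun f n => schr_apply V _ hVb f n, ?_, ?_⟩
  · obtain ⟨ψ, hψ, hψ0, hψeq⟩ := exists_eigenfunction hg
    have hmem : Memℓp (fun n => (ψ n : ℂ)) 2 := by
      rw [memL2Z_iff]
      simpa using hψ
    set Ψ : L2Z := ⟨fun n => (ψ n : ℂ), hmem⟩ with hΨ
    have hΨa : ∀ n, Ψ n = (ψ n : ℂ) := fun n => rfl
    refine ⟨Ψ, ?_, 2 * ccs 0, ?_⟩
    · intro h0
      have h1 : Ψ 0 = 0 := by rw [h0]; rfl
      rw [hΨa] at h1
      exact hψ0 (Complex.ofReal_eq_zero.1 h1)
    · ext n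
      rw [schr_apply, hΨa, hΨa, hΨa]
      change _ = ((2 * ccs 0 : ℝ) : ℂ) * Ψ n
      rw [hΨa]
      have := congrArg (fun r : ℝ => (r : ℂ)) (hψeq n)
      push_cast at this
      push_cast
      exact this
  · have hns : ¬ (specMeasure (schr V _ hVb) (schr_selfAdjoint V _ hVb) (dlt 0)) ⟂ₘ
        (volume : Measure ℝ) := by
      obtain ⟨C, hC⟩ := exists_bounded_solution hg (dl_tol hN)
      exact not_singular_of_bounded V _ (lower V _ hVb) (⋂ k, AA ccs N k)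
        (MeasurableSet.iInter (fun k => AA_measurable _ _ k)) (AAinf_pos hvol) C
        (fun E hE => hC E (Set.mem_iInter.1 hE))
    obtain ⟨φ, hφ0, ν, hν, hac, hnorm, hmom⟩ :=
      exists_ac_vector_moment _ (schr_selfAdjoint V _ hVb) _ hns
    exact ⟨φ, hφ0, ν, ⟨hν, hnorm, hmom⟩, hac⟩

end Pool.Agent.Results.MP_3ab43d_mp.MixedSpectrum
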